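import Pool.Agent.Lib.MP_661727_gt.FF.Many

/-!
Points with prescribed Frobenius twist on a curve given by finitely many separable elements.
-/

set_option autoImplicit false
set_option linter.unusedSectionVars false
set_option linter.overlappingInstances false
open Polynomial Module

namespace Pool.Agent.Lib.MP_661727_gt.FF

open Pool.Agent.Lib.MP_587b89_lc

lemma ext_away {B U k : Type} [CommRing B] [Field U] [Field k] (g : B →+* U)
    (hg : Function.Injective g) (h : B) (π : B →+* k) (hπ : π h ≠ 0) (S : Subring U)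
    (hS : ∀ z ∈ S, ∃ (n : ℕ) (f : B), g f = g h ^ n * z) :
    ∃ π' : S →+* k, ∀ (z : S) (n : ℕ) (f : B), g f = g h ^ n * z → π f = π h ^ n * π' z := by
  choose n f hf using fun z : S => hS z z.2
  have key : ∀ (z : S) (m : ℕ) (f' : B), g f' = g h ^ m * z →
      π f' = π h ^ m * (π (f z) / π h ^ n z) := by
    intro z m f' e
    have h1 : f' * h ^ n z = h ^ m * f z := hg (by
      rw [map_mul, map_mul, map_pow, map_pow, e, hf]; ring)
    have h2 := congrArg π h1
    rw [map_mul, map_mul, map_pow, map_pow] at h2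
    field_simp
    exact h2
  have hpow : ∀ m : ℕ, π h ^ m ≠ 0 := fun m => pow_ne_zero m hπ
  refine ⟨{ toFun := fun z => π (f z) / π h ^ n z
            map_one' := ?_, map_mul' := fun z w => ?_, map_zero' := ?_
            map_add' := fun z w => ?_ }, key⟩
  · have := key 1 0 1 (by simp)
    simpa using this.symm
  · have := key (z * w) (n z + n w) (f z * f w) (by
      rw [map_mul, hf, hf, Subring.coe_mul]; ring)
    rw [map_mul] at this
    refine mul_left_cancel₀ (hpow (n z + n w)) ?_
    rw [← this, pow_add]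
    field_simp
  · have := key 0 0 0 (by simp)
    simpa using this.symm
  · have := key (z + w) (n z + n w) (f z * h ^ n w + f w * h ^ n z) (by
      rw [map_add, map_mul, map_mul, map_pow, map_pow, hf, hf, Subring.coe_add]; ring)
    rw [map_add, map_mul, map_mul, map_pow, map_pow] at this
    refine mul_left_cancel₀ (hpow (n z + n w)) ?_
    rw [← this, pow_add]
    field_simp

lemma exists_fixed_mul {k : Type} [Field k] (τ : k →+* k) (hk : ∀ c, ∃ N, 0 < N ∧ (τ ^ N) c = c)
    {h : k[X]} (hh : h ≠ 0) : ∃ h' : k[X], h' ≠ 0 ∧ h ∣ h' ∧ h'.map τ = h' := by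
  obtain ⟨N, hN, hN'⟩ := common_period τ h.coeffs fun c _ => hk c
  have h1 := map_fix _ _ hN'
  refine ⟨∏ i ∈ Finset.range N, h.map (τ ^ i),
    Finset.prod_ne_zero_iff.2 fun i _ => Polynomial.map_ne_zero hh, ?_, ?_⟩
  · have := Finset.dvd_prod_of_mem (fun i => h.map (τ ^ i)) (Finset.mem_range.2 hN)
    rwa [pow_zero, RingHom.one_def, Polynomial.map_id] at this
  · have e1 := Finset.prod_range_succ (fun i => h.map (τ ^ i)) N
    have e2 := Finset.prod_range_succ' (fun i => h.map (τ ^ i)) N
    rw [h1] at e1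
    rw [pow_zero, RingHom.one_def, Polynomial.map_id] at e2
    refine Eq.trans ?_ (mul_right_cancel₀ hh (e1.symm.trans e2)).symm
    rw [Polynomial.map_prod]
    refine Finset.prod_congr rfl fun i _ => ?_
    rw [Polynomial.map_map, pow_succ']
    rfl

section
variable {k U : Type} [Field k] [Field U] [Algebra k[X] U] [Algebra (FractionRing k[X]) U]
  [IsScalarTower k[X] (FractionRing k[X]) U]

lemma stable' (τ : k →+* k)
    (Φ : U →+* U) (hΦ : ∀ r : k[X], Φ (algebraMap k[X] U r) = algebraMap k[X] U (r.map τ))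
    {σ : Type} (x : σ → U) (hint : ∀ i, IsIntegral k[X] (x i)) (hfix : ∀ i, Φ (x i) = x i) :
    ∀ y ∈ IntermediateField.adjoin (FractionRing k[X])
      (⋃ i, (minpoly (FractionRing k[X]) (x i)).rootSet U),
    Φ y ∈ IntermediateField.adjoin (FractionRing k[X])
      (⋃ i, (minpoly (FractionRing k[X]) (x i)).rootSet U) := by
  have hinj : Function.Injective (algebraMap k[X] U) := by
    rw [IsScalarTower.algebraMap_eq k[X] (FractionRing k[X]) U]
    exact (algebraMap (FractionRing k[X]) U).injective.comp (IsFractionRing.injective _ _)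
  have : FaithfulSMul k[X] U := (faithfulSMul_iff_algebraMap_injective _ _).2 hinj
  have key : ∀ (P : k[X][X]) (y : U), Φ (aeval y P) = aeval (Φ y) (P.map (mapRingHom τ)) := by
    intro P y
    rw [aeval_def, aeval_def, hom_eval₂, eval₂_map]
    congr 1
    exact RingHom.ext fun r => hΦ r
  intro y hy
  induction hy using IntermediateField.adjoin_induction with
  | mem y hy =>
    obtain ⟨i, hi⟩ := Set.mem_iUnion.1 hy
    refine IntermediateField.subset_adjoin _ _ (Set.mem_iUnion.2 ⟨i, ?_⟩)
    have hm := minpoly.monic (hint i)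
    have h1 : (minpoly k[X] (x i)).map (mapRingHom τ) = minpoly k[X] (x i) := by
      refine eq_of_monic_of_dvd_of_natDegree_le hm (hm.map _)
        (minpoly.isIntegrallyClosed_dvd (hint i) ?_) natDegree_map_le
      rw [← hfix i, ← key, hfix i, minpoly.aeval, map_zero]
    rw [minpoly.isIntegrallyClosed_eq_field_fractions' _ (hint i),
      mem_rootSet_of_ne (hm.map _).ne_zero, aeval_map_algebraMap] at hi ⊢
    rw [← h1, ← key, hi, map_zero]
  | algebraMap a =>
    obtain ⟨r, s, -, rfl⟩ := IsFractionRing.div_surjective (A := k[X]) a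
    rw [map_div₀, ← IsScalarTower.algebraMap_apply, ← IsScalarTower.algebraMap_apply, map_div₀,
      hΦ, hΦ, IsScalarTower.algebraMap_apply k[X] (FractionRing k[X]) U,
      IsScalarTower.algebraMap_apply k[X] (FractionRing k[X]) U]
    exact div_mem (IntermediateField.algebraMap_mem _ _) (IntermediateField.algebraMap_mem _ _)
  | add y z _ _ h1 h2 => rw [map_add]; exact add_mem h1 h2
  | inv y _ h1 => rw [map_inv₀]; exact inv_mem h1
  | mul y z _ _ h1 h2 => rw [map_mul]; exact mul_mem h1 h2

lemma pow_map (p : ℕ) [Fact p.Prime] [CharP k p] {e : ℕ} (Φ : U →+* U)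
    (hΦ : ∀ r : k[X], Φ (algebraMap k[X] U r) = algebraMap k[X] U (r.map (iterateFrobenius k p e)))
    (s : ℕ) (r : k[X]) : (Φ ^ s) (algebraMap k[X] U r) =
      algebraMap k[X] U (r.map (iterateFrobenius k p (e * s))) := by
  induction s with
  | zero => simp
  | succ s ih =>
    rw [pow_succ', RingHom.mul_def, RingHom.comp_apply, ih, Nat.mul_succ, add_comm,
      iterateFrobenius_add, ← Polynomial.map_map, hΦ]

variable [IsAlgClosed k] [IsAlgClosure (FractionRing k[X]) U]

variable [Algebra k U] [IsScalarTower k k[X] U]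

theorem cheb (p : ℕ) [Fact p.Prime] [CharP k p] (hk : ∀ c : k, ∃ N, 0 < N ∧ c ^ p ^ N = c)
    {e : ℕ} (he : e ≠ 0) (Φ : U →+* U)
    (hΦ : ∀ r : k[X], Φ (algebraMap k[X] U r) = algebraMap k[X] U (r.map (iterateFrobenius k p e)))
    {ι : Type} [Finite ι] (y : ι → U) (hy : ∀ i, IsSeparable (FractionRing k[X]) (y i))
    (hfixy : ∀ i, Φ (y i) = y i)
    (i0 : ι) (h0 : y i0 ≠ 0) (S : Subring U) (hS : S = Subring.closure (Set.range y)) :
    ∃ c : ℕ, ∀ (s : ℕ) (σ : U ≃ₐ[FractionRing k[X]] U) (i j : ι) (m n : ℕ),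
      y i ^ m * y j ^ n ≠ 1 → c * (m + n + 1) ≤ p ^ (e * s) →
      ∃ π : S →+* k, (∀ z : S, (z : U) = y i0 → π z ≠ 0) ∧
        (∀ z : S, (z : U) = y i ^ m * y j ^ n → π z ≠ 1) ∧
        (∀ (z : S) (c : k), (z : U) = algebraMap k U c → π z = c) ∧
        ∀ (z : S) (ζ : k), σ z = algebraMap k U ζ * z →
          π z ^ p ^ (e * s) = ζ ^ p ^ (e * s) * π z := by
  classical
  have := Fintype.ofFinite ι
  have hinj : Function.Injective (algebraMap k[X] U) := by
    rw [IsScalarTower.algebraMap_eq k[X] (FractionRing k[X]) U]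
    exact (algebraMap (FractionRing k[X]) U).injective.comp (IsFractionRing.injective _ _)
  have : IsAlgClosed U := IsAlgClosure.isAlgClosed (FractionRing k[X])
  have : Algebra.IsAlgebraic k[X] U := ⟨fun z =>
    (IsFractionRing.isAlgebraic_iff k[X] (FractionRing k[X]) U).2
      (IsAlgClosure.isAlgebraic.isAlgebraic z)⟩
  obtain ⟨h1, hh1, hint1⟩ := Algebra.IsAlgebraic.exists_integral_multiples k[X]
    (Finset.univ.image y)
  obtain ⟨h, hh, ⟨h2, hh2⟩, hτ⟩ := exists_fixed_mul (iterateFrobenius k p e) (fun c => by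
    obtain ⟨N, hN, hc⟩ := hk c
    refine ⟨N, hN, ?_⟩
    have h1 : (iterateFrobenius k p 1 ^ N) c = c := by
      rw [iter_pow, one_mul, iterateFrobenius_def, hc]
    have h2 := pow_mul_fix _ h1 e
    rw [iter_pow, one_mul, mul_comm] at h2
    rw [iter_pow, h2]) hh1
  have hint : ∀ z ∈ Finset.univ.image y, IsIntegral k[X] (h • z) := fun z hz => by
    rw [hh2, mul_comm, mul_smul]
    exact (hint1 z hz).smul _
  clear hint1 hh2 hh1 h1 h2
  obtain ⟨hU, hhU⟩ : ∃ hU, hU = algebraMap k[X] U h := ⟨_, rfl⟩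
  have hU0 : hU ≠ 0 := by rw [hhU]; exact (map_ne_zero_iff _ hinj).2 hh
  let x : ι → U := fun i => hU * y i
  have hint' : ∀ i, IsIntegral k[X] (x i) := fun i => by
    have := hint (y i) (Finset.mem_image_of_mem _ (Finset.mem_univ i))
    rwa [Algebra.smul_def, ← hhU] at this
  have hsep : ∀ i, IsSeparable (FractionRing k[X]) (x i) := fun i => by
    refine mul_mem (show hU ∈ separableClosure (FractionRing k[X]) U from ?_)
      (show y i ∈ separableClosure (FractionRing k[X]) U from hy i)
    rw [hhU, IsScalarTower.algebraMap_apply k[X] (FractionRing k[X]) U]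
    exact IntermediateField.algebraMap_mem _ _
  have hfixh : Φ hU = hU := by rw [hhU, hΦ, hτ]
  have hfixS : ∀ z ∈ S, Φ z = z := by
    intro z hz
    rw [hS] at hz
    exact RingHom.eqOn_set_closure (f := Φ) (g := RingHom.id U)
      (by rintro _ ⟨i, rfl⟩; exact hfixy i) hz
  have hst := stable' _ Φ hΦ x hint' (fun i => by simp only [x]; rw [map_mul, hfixh, hfixy])
  obtain ⟨M, hM⟩ : ∃ M, M = IntermediateField.adjoin (FractionRing k[X])
      (⋃ a : ι, (minpoly (FractionRing k[X]) (x a)).rootSet U) := ⟨_, rfl⟩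
  have hsp : ∀ a : ι, IsSplittingField (FractionRing k[X]) (IntermediateField.adjoin
      (FractionRing k[X]) ((minpoly (FractionRing k[X]) (x a)).rootSet U))
      (minpoly (FractionRing k[X]) (x a)) :=
    fun a => IntermediateField.adjoin_rootSet_isSplittingField (IsAlgClosed.splits _)
  have hgal := fun a : ι => IsGalois.of_separable_splitting_field (hsep a) (E :=
    IntermediateField.adjoin (FractionRing k[X]) ((minpoly (FractionRing k[X]) (x a)).rootSet U))
  have hfd := fun a : ι => IsSplittingField.finiteDimensional (IntermediateField.adjoin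
    (FractionRing k[X]) ((minpoly (FractionRing k[X]) (x a)).rootSet U))
      (minpoly (FractionRing k[X]) (x a))
  have : FiniteDimensional (FractionRing k[X]) M := by
    rw [hM, IntermediateField.adjoin_iUnion]; infer_instance
  have : IsGalois (FractionRing k[X]) M := by
    rw [hM, IntermediateField.adjoin_iUnion]
    exact { }
  rw [← hM] at hst
  have hmem : ∀ a, x a ∈ M := by
    intro a
    rw [hM]
    refine IntermediateField.subset_adjoin _ _ (Set.mem_iUnion.2 ⟨a, ?_⟩)
    exact (mem_rootSet_of_ne (minpoly.ne_zero (hint' a).tower_top)).2 (minpoly.aeval _ _)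
  let _ : Algebra k M := ((algebraMap k[X] M).comp (algebraMap k k[X])).toAlgebra
  have : IsScalarTower k k[X] M := IsScalarTower.of_algebraMap_eq fun c => rfl
  let xB : ι → integralClosure k[X] M := fun a => ⟨⟨x a, hmem a⟩,
    (isIntegral_algHom_iff (M.val.restrictScalars k[X]) Subtype.val_injective).1 (hint' a)⟩
  let g : integralClosure k[X] M →+* U :=
    (M.val : M →+* U).comp (integralClosure k[X] M).val.toRingHom
  have hg : Function.Injective g := Subtype.val_injective.comp Subtype.val_injective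
  have hgr : ∀ r : k[X], g (algebraMap k[X] _ r) = algebraMap k[X] U r := fun r => rfl
  have hgv : ∀ f, g f = ((f : M) : U) := fun _ => rfl
  have hgx : ∀ i, g (xB i) = hU * y i := fun i => rfl
  obtain ⟨hB, hhB⟩ : ∃ hB, hB = algebraMap k[X] (integralClosure k[X] M) h := ⟨_, rfl⟩
  have hgh : g hB = hU := by rw [hhB, hgr, hhU]
  let ΦM : M →+* M := (Φ.comp (M.val : M →+* U)).codRestrict M fun y => hst y y.2
  have hΦM : ∀ (s : ℕ) (z : M), (((ΦM ^ s) z : M) : U) = (Φ ^ s) z := by
    intro s z
    induction s with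
    | zero => simp
    | succ s ih =>
      rw [pow_succ', pow_succ', RingHom.mul_def, RingHom.mul_def, RingHom.comp_apply,
        RingHom.comp_apply, ← ih]
      rfl
  obtain ⟨c, hc⟩ := gal_many p he hk ΦM (fun r => Subtype.ext (hΦ r)) xB hB
    (fun h1 => hU0 (by rw [← hgh, h1, map_zero])) i0
    (fun h1 => mul_ne_zero hU0 h0 (by rw [← hgx, h1, map_zero]))
  refine ⟨c, fun s σ i j m n hne hle => ?_⟩
  obtain ⟨π, h1, h2, h3, h4⟩ := hc s (σ.restrictNormal M) i j m n (fun h1 => hne (by
    have := congrArg g h1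
    rw [map_mul, map_pow, map_pow, map_pow, hgx, hgx, hgh] at this
    refine mul_left_cancel₀ (pow_ne_zero (m + n) hU0) ?_
    rw [mul_one]
    conv_rhs => rw [← this]
    ring)) hle
  have hSz : ∀ z ∈ S, ∃ (n : ℕ) (f : integralClosure k[X] M), g f = g hB ^ n * z := by
    intro z hz
    rw [hS] at hz
    induction hz using Subring.closure_induction with
    | mem z hz =>
      obtain ⟨i, rfl⟩ := hz
      exact ⟨1, xB i, by rw [hgx, hgh, pow_one]⟩
    | zero => exact ⟨0, 0, by simp⟩
    | one => exact ⟨0, 1, by simp⟩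
    | add z w _ _ hz hw =>
      obtain ⟨n, f, hf⟩ := hz
      obtain ⟨n', f', hf'⟩ := hw
      exact ⟨n + n', f * hB ^ n' + f' * hB ^ n, by
        rw [map_add, map_mul, map_mul, map_pow, map_pow, hf, hf']; ring⟩
    | neg z _ hz =>
      obtain ⟨n, f, hf⟩ := hz
      exact ⟨n, -f, by rw [map_neg, hf]; ring⟩
    | mul z w _ _ hz hw =>
      obtain ⟨n, f, hf⟩ := hz
      obtain ⟨n', f', hf'⟩ := hw
      exact ⟨n + n', f * f', by rw [map_mul, hf, hf']; ring⟩
  obtain ⟨π', hπ'⟩ := ext_away g hg hB (π : integralClosure k[X] M →+* k) h1 S hSz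
  simp only [RingHom.coe_coe] at hπ'
  have hgc : ∀ c : k, g (algebraMap k _ c) = algebraMap k U c := fun c =>
    (IsScalarTower.algebraMap_apply k k[X] U c).symm
  have htw : ∀ (f : integralClosure k[X] M) (ζ : k), (Φ ^ s) (g f) = g f →
      σ (g f) = algebraMap k U ζ * g f → π f ^ p ^ (e * s) = ζ ^ p ^ (e * s) * π f := by
    intro f ζ e1 e2
    rw [← h4 f (algebraMap k _ (ζ ^ p ^ (e * s)) * f) ?_, map_mul, AlgHom.commutes]
    · rfl
    · refine Subtype.ext ?_
      rw [hΦM, AlgEquiv.restrictNormal_apply]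
      rw [← hgv, ← hgv, e2, map_mul, map_mul, e1, hgc, IsScalarTower.algebraMap_apply k k[X] U,
        pow_map p Φ hΦ, IsScalarTower.algebraMap_apply k k[X] U]
      simp [iterateFrobenius_def]
  have hσh : σ hU = hU := by
    rw [hhU, IsScalarTower.algebraMap_apply k[X] (FractionRing k[X]) U, AlgEquiv.commutes]
  have hps : ∀ z, Φ z = z → (Φ ^ s) z = z := fun z hz => by
    have := pow_mul_fix Φ (a := z) (N := 1) (by rw [pow_one]; exact hz) s
    rwa [one_mul] at this
  have hπh : π hB ^ p ^ (e * s) = π hB := by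
    have := htw hB 1 (by rw [hgh]; exact hps _ hfixh) (by rw [hgh, hσh, map_one, one_mul])
    simpa using this
  refine ⟨π', fun z hz h5 => h2 ?_, fun z hz h5 => h3 ?_, fun z c hz => ?_, fun z ζ hz => ?_⟩
  · rw [hπ' z 1 (xB i0) (by rw [hgx, hgh, hz, pow_one]), h5, mul_zero]
  · have := hπ' z (m + n) (xB i ^ m * xB j ^ n) (by
      rw [map_mul, map_pow, map_pow, hgx, hgx, hgh, hz]; ring)
    rwa [map_mul, map_pow, map_pow, h5, mul_one] at this
  · have := hπ' z 0 (algebraMap k _ c) (by rw [hgc, hz, pow_zero, one_mul])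
    rw [AlgHom.commutes, pow_zero, one_mul] at this
    exact this.symm
  · obtain ⟨n', f, hf⟩ := hSz z z.2
    have e1 := htw f ζ (hps _ (by rw [hf, map_mul, map_pow, hgh, hfixh, hfixS z z.2]))
      (by rw [hf, map_mul, map_pow, hgh, hσh, hz]; ring)
    rw [hπ' z n' f hf, mul_pow, ← pow_mul, mul_comm n', pow_mul, hπh] at e1
    refine mul_left_cancel₀ (pow_ne_zero n' h1) ?_
    rw [e1]
    ring

end

end Pool.Agent.Lib.MP_661727_gt.FF
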