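import Pool.Agent.Lib.MP_661727_gt.FF.Main

/-!
Characters of a rank two lattice from the points of a Kummer cover of a curve.
-/

set_option autoImplicit false
set_option linter.unusedSectionVars false
set_option linter.overlappingInstances false
open Polynomial Module Multiplicative

namespace Pool.Agent.Lib.MP_661727_gt.FF

open Pool.Agent.Lib.MP_587b89_lc

lemma pow_pred {k : Type} [Field k] {Q : ℕ} (hQ : Q ≠ 0) {x c : k} (hx : x ≠ 0)
    (h : x ^ Q = c * x) : x ^ (Q - 1) = c := by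
  refine mul_right_cancel₀ hx ?_
  rw [← pow_succ, Nat.sub_add_cancel (Nat.pos_of_ne_zero hQ), h]

section
variable {k U : Type} [Field k] [Field U] [Algebra k[X] U] [Algebra (FractionRing k[X]) U]
  [IsScalarTower k[X] (FractionRing k[X]) U] [IsAlgClosed k] [IsAlgClosure (FractionRing k[X]) U]
  [Algebra k U] [IsScalarTower k k[X] U]

lemma sat' (p : ℕ) [Fact p.Prime] (K : IntermediateField (FractionRing k[X]) U)
    [FiniteDimensional (FractionRing k[X]) K] (χ : Multiplicative (Fin 2 → ℤ) →* U)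
    (hK : ∀ w, χ w ∈ K) (hχ : ∀ v : Fin 2 → ℤ, v ≠ 0 → Transcendental k (χ (.ofAdd v))) :
    ∃ δ : ℕ, 0 < δ ∧ ¬ p ∣ δ ∧ ∀ (n : ℕ) (z : U) (v : Fin 2 → ℤ), ¬ p ∣ n → z ∈ K →
      z ^ n = χ (.ofAdd v) → ∀ i, (n : ℤ) ∣ δ * v i := by
  have hp : p.Prime := Fact.out
  let _ : Algebra k K := ((algebraMap k[X] K).comp (algebraMap k k[X])).toAlgebra
  have : IsScalarTower k k[X] K := IsScalarTower.of_algebraMap_eq fun c => rfl
  have : IsScalarTower k K U := IsScalarTower.of_algebraMap_eq fun c =>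
    IsScalarTower.algebraMap_apply k k[X] U c
  obtain ⟨δ, h0, h⟩ := sat (k := k) (χ.codRestrict K hK) fun v hv h1 =>
    hχ v hv (h1.algebraMap (A := U))
  obtain ⟨a, δ', h1, rfl⟩ := Nat.exists_eq_pow_mul_and_not_dvd h0 p hp.ne_one
  refine ⟨δ', Nat.pos_of_ne_zero (right_ne_zero_of_mul h0), h1, fun n z v hn hz e i => ?_⟩
  have h2 := h n ⟨z, hz⟩ v (by rintro rfl; exact hn (dvd_zero p)) (Subtype.ext e) i
  rw [Nat.cast_mul, mul_assoc] at h2
  refine IsCoprime.dvd_of_dvd_mul_left ?_ h2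
  rw [Nat.isCoprime_iff_coprime]
  exact (((Nat.Prime.coprime_iff_not_dvd hp).2 hn).symm).pow_right a

theorem core (p : ℕ) [Fact p.Prime] [CharP k p] (hk : ∀ c : k, ∃ N, 0 < N ∧ c ^ p ^ N = c)
    {A : Type} [CommRing A] {ι : Type} [Finite ι] (a : ι → A)
    (ha : Subring.closure (Set.range a) = ⊤) (κ : A →+* U)
    (hsep : ∀ x, IsSeparable (FractionRing k[X]) (κ x))
    (g : ℕ → Multiplicative (Fin 2 → ℤ) →* U)
    (hg : ∀ (m n : ℕ) w, n ≠ 0 → g (m * n) (ofAdd (n • w)) = g m (ofAdd w))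
    {f : ℕ} (hf : ¬ p ∣ f) (hA : ∀ w, ∃ x, g 1 w ^ f = κ x)
    (ind : ∀ w, w ≠ 0 → Transcendental k (g 1 (ofAdd w))) :
    ∃ e0 j0 : ℕ, 0 < e0 ∧ ¬ p ∣ e0 ∧ 0 < j0 ∧ ∀ e j : ℕ, 0 < e → e0 ∣ e → ¬ p ∣ e → 0 < j →
      j0 ∣ j → ∃ s0, ∀ s, s0 ≤ s → ∀ w : Fin 2 → ℤ, (¬ ∀ i, (p ^ (j * s) - 1 : ℤ) ∣ w i) →
        ∃ (ρ : A →+* k) (l : Multiplicative (Fin 2 → ℤ) →* k), l (ofAdd w) ≠ 1 ∧
          (∀ v, l v ^ (p ^ (j * s) - 1) = 1) ∧ ∀ x v, κ x = g e v → ρ x = l v := by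
  classical
  have := Fintype.ofFinite ι
  have hp : p.Prime := Fact.out
  have : CharP U p := charP_of_injective_algebraMap (algebraMap k U).injective p
  have hcast : ∀ n : ℕ, ¬ p ∣ n → (n : U) ≠ 0 := fun n hn h => hn ((CharP.cast_eq_zero_iff U p n).1 h)
  have hmul : ∀ m n : ℕ, ¬ p ∣ m → ¬ p ∣ n → ¬ p ∣ m * n := fun m n hm hn h =>
    (hp.dvd_mul.1 h).elim hm hn
  have hz : ∀ n : ℕ, ¬ p ∣ n → n ≠ 0 := fun n hn h => hn (h ▸ dvd_zero p)
  have hf0 := hz f hf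
  have hpow : ∀ n w, n ≠ 0 → g n w ^ (n * f) = g 1 w ^ f := fun n w hn => by
    have := hg 1 n w.toAdd hn
    rw [one_mul, ofAdd_nsmul, map_pow, ofAdd_toAdd] at this
    rw [pow_mul, this]
  have hne1 : ∀ n w, n ≠ 0 → w ≠ 0 → g n (ofAdd w) ≠ 1 := fun n w hn hw h =>
    ind w hw (IsAlgebraic.of_pow (Nat.pos_of_ne_zero hf0) (by
      rw [← hpow n _ hn, h, one_pow]; exact isAlgebraic_one))
  obtain ⟨K, hK⟩ : ∃ K, K = IntermediateField.adjoin (FractionRing k[X])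
    (Set.range fun i => κ (a i)) := ⟨_, rfl⟩
  have : FiniteDimensional (FractionRing k[X]) K := by
    rw [hK]
    exact IntermediateField.finiteDimensional_adjoin (by
      rintro _ ⟨i, rfl⟩
      exact (hsep _).isIntegral)
  have hκK : ∀ x, κ x ∈ K := fun x => by
    have : Subring.closure (Set.range a) ≤ K.toSubalgebra.toSubring.comap κ :=
      Subring.closure_le.2 (by
        rintro _ ⟨i, rfl⟩
        exact hK ▸ IntermediateField.subset_adjoin _ _ ⟨i, rfl⟩)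
    exact this (ha ▸ Subring.mem_top x)
  have hκ : ∀ n w, n ≠ 0 → ∃ x, g n w ^ (n * f) = κ x := fun n w hn => by
    rw [hpow n w hn]; exact hA w
  have hgK : ∀ n w, n ≠ 0 → g n w ^ (n * f) ∈ K := fun n w hn => by
    obtain ⟨x, hx⟩ := hκ n w hn
    rw [hx]; exact hκK x
  obtain ⟨e0, he0, he0', hsat⟩ := sat' (k := k) p K ((powMonoidHom f).comp (g 1))
    (fun w => by
      have := hgK 1 w one_ne_zero
      rwa [one_mul] at this)
    (fun v hv => (ind v hv).pow (Nat.pos_of_ne_zero hf0))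
  have hsat' : ∀ m w, ¬ p ∣ m → g (e0 * m) (ofAdd w) ∈ K → ∀ i, (m : ℤ) ∣ w i := by
    intro m w hm hw i
    have h1 := hmul _ _ he0' hm
    have := hsat (e0 * m * f) _ w (hmul _ _ h1 hf) hw (hpow _ _ (hz _ h1)) i
    rw [Nat.cast_mul, Nat.cast_mul, mul_assoc] at this
    exact (dvd_mul_right _ _).trans
      ((mul_dvd_mul_iff_left (by exact_mod_cast he0.ne' : (e0 : ℤ) ≠ 0)).1 this)
  obtain ⟨j0, Φ0, hj0, hΦ0, hfix0⟩ := exists_frob p hk
    (Finset.univ.image (fun i => κ (a i)) ∪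
      {g e0 (ofAdd ![1, 0]), g e0 (ofAdd ![-1, 0]), g e0 (ofAdd ![0, 1]), g e0 (ofAdd ![0, -1])})
  have hfκ : ∀ x, Φ0 (κ x) = κ x := fun x =>
    RingHom.eqOn_set_closure (f := Φ0.comp κ) (g := κ) (s := Set.range a) (by
      rintro _ ⟨i, rfl⟩
      exact hfix0 _ (Finset.mem_union_left _ (Finset.mem_image_of_mem _ (Finset.mem_univ i))))
      (ha ▸ Subring.mem_top x)
  have hfg : ∀ w, Φ0 (g e0 (ofAdd w)) = g e0 (ofAdd w) := fun w => by
    obtain ⟨z0, h0, z1, h1, e⟩ := mono U (g e0) w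
    rw [e, map_mul, map_pow, map_pow, hfix0 z0 (Finset.mem_union_right _ (by simpa using h0)),
      hfix0 z1 (Finset.mem_union_right _ (by simpa using h1))]
  refine ⟨e0, j0, he0, he0', Nat.pos_of_ne_zero hj0, ?_⟩
  rintro _ _ - ⟨e1, rfl⟩ he hj ⟨j1, rfl⟩
  have he1 : ¬ p ∣ e1 := fun h => he (h.mul_left _)
  have hps : ∀ z, Φ0 z = z → (Φ0 ^ j1) z = z := fun z hz => by
    have := pow_mul_fix Φ0 (a := z) (N := 1) (by rw [pow_one]; exact hz) j1
    rwa [one_mul] at this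
  have lvl := fun (m : ℕ) (hm : ¬ p ∣ m) => (fix_frob _ (Φ0 ^ j1) (pow_map p Φ0 hΦ0 j1) K
    (hcast _ (hmul _ _ (hmul _ _ he0' hm) hf)) (g (e0 * m))
    (fun w => hgK _ w (hz _ (hmul _ _ he0' hm)))
    (fun w => by
      obtain ⟨x, hx⟩ := hκ _ w (hz _ (hmul _ _ he0' hm))
      rw [hx]; exact hps _ (hfκ x))
    (fun w hw => by
      choose u hu using hsat' m w.toAdd hm hw
      have e : w = ofAdd (m • u) := toAdd.injective (funext fun i => by simp [hu])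
      rw [e, hg _ _ _ (hz _ hm)]
      exact hps _ (hfg u))).elim fun Φ h => cheb2 p hk hj.ne' Φ h.1 a ha κ hsep
        (fun x => h.2.1 _ (hκK x) (hps _ (hfκ x))) (g := 1) (by simp)
        (hcast _ (hmul _ _ (hmul _ _ he0' hm) hf)) (g (e0 * m))
        (fun w => hκ _ w (hz _ (hmul _ _ he0' hm))) h.2.2
  obtain ⟨c1, hc1⟩ := lvl e1 he1
  obtain ⟨t, ht⟩ : ∃ t, t = 4 * c1 + 1 := ⟨_, rfl⟩
  obtain ⟨n1, hn1, hn1'⟩ : ∃ n1, ¬ p ∣ n1 ∧ ∀ q, q ≤ t * t → ¬ p ∣ q → q ∣ n1 := by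
    refine ⟨∏ q ∈ (Finset.range (t * t + 1)).filter (fun q => ¬ p ∣ q), q, fun h => ?_,
      fun q h1 h2 => Finset.dvd_prod_of_mem _ (by simp [h2]; omega)⟩
    obtain ⟨q, hq, h⟩ := (Prime.dvd_finsetProd_iff hp.prime _).1 h
    exact (Finset.mem_filter.1 hq).2 h
  obtain ⟨c2, hc2⟩ := lvl (e1 * n1) (hmul _ _ he1 hn1)
  refine ⟨2 * c1 + 2 * c2 + 1, fun s hs w hw => ?_⟩
  obtain ⟨Q, hQ⟩ : ∃ Q, Q = p ^ (j0 * j1 * s) := ⟨_, rfl⟩
  have hQs : s < Q := by
    rw [hQ]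
    exact lt_of_le_of_lt (Nat.le_mul_of_pos_left s hj) (Nat.lt_pow_self hp.one_lt)
  have hpQ : p ∣ Q := hQ ▸ dvd_pow_self p (Nat.mul_ne_zero hj.ne' (by omega))
  have hQ0 : Q ≠ 0 := by omega
  have hc1s := hc1 s
  have hc2s := hc2 s
  rw [← hQ] at hc1s hc2s ⊢
  have hw' : ¬ ∀ i, ((Q - 1 : ℕ) : ℤ) ∣ w i := by
    rwa [Nat.cast_sub (by omega), hQ, Nat.cast_pow, Nat.cast_one]
  obtain ⟨q, j', r, z, hq, hj', hr, hz'⟩ := prime_order (by omega) w hw'
  have hpq : ¬ p ∣ q := fun h => by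
    have h1 : p ∣ Q - 1 := hj' ▸ h.mul_right _
    have h2 := (Nat.dvd_sub_iff_right (by omega) hpQ).1 h1
    exact hp.one_lt.ne' (Nat.dvd_one.1 h2)
  have hj0' : j' ≠ 0 := by
    rintro rfl
    omega
  have hl0 : ∀ (l : Multiplicative (Fin 2 → ℤ) →* k) v, l v ≠ 0 := fun l v =>
    ((Group.isUnit v).map l).ne_zero
  by_cases hqt : q ≤ t * t
  · obtain ⟨n2, hn2⟩ := hn1' q hqt hpq
    have hm := hmul _ _ he1 hn1
    have hn10 := hz _ hn1
    obtain ⟨σ, ζ, h1, h2, h3, h4⟩ := kum (k := k) K (hcast _ (hmul _ _ (hmul _ _ he0' hm) hf))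
      (g (e0 * (e1 * n1))) (fun w => hgK _ w (hz _ (hmul _ _ he0' hm)))
      (nsmulAddMonoidHom n1).range
      (fun w hw => by
        choose u hu using hsat' _ w hm hw
        exact ⟨fun i => e1 * u i, funext fun i => by simp [hu]; ring⟩)
      (v := n2 • z) (by
        rintro ⟨u, hu⟩
        refine hz' fun i => ⟨u i, ?_⟩
        have h1 := congrFun hu i
        have h2 : (n2 : ℤ) ≠ 0 := by
          rintro h
          exact hn10 (by rw [hn2, Nat.cast_eq_zero.1 h, mul_zero])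
        simp only [nsmulAddMonoidHom_apply, Pi.smul_apply, nsmul_eq_mul, hn2, Nat.cast_mul] at h1
        exact mul_left_cancel₀ h2 (by linear_combination -h1))
    obtain ⟨ρ, l, -, -, -, -, p5, p6⟩ := hc2s σ ![1, 0] (fun x => h2 _ (hκK x))
      (hne1 _ _ (hz _ (hmul _ _ he0' hm)) (fun h => by simpa using congrFun h 0))
      (by simp; omega)
    refine ⟨ρ, l.comp (powMonoidHom n1), fun h => h1 ?_, fun v => ?_, fun x v h => p5 x _ ?_⟩
    · have e1 := pow_pred hQ0 (hl0 l _) (p6 _ ζ h4)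
      have e2 : (Q - 1) • n2 • z = r • n1 • w := by
        rw [smul_comm r, hr, hj', hn2, smul_smul, smul_smul]
        congr 1
        ring
      rw [← map_pow, ← ofAdd_nsmul, e2, ofAdd_nsmul, ofAdd_nsmul, map_pow] at e1
      have e3 : l (ofAdd w ^ n1) = 1 := h
      rw [e3, one_pow, hQ] at e1
      refine (iterateFrobenius k p (j0 * j1 * s)).injective ?_
      rw [iterateFrobenius_def, ← e1, map_one]
    · have := p6 (v ^ n1) 1 (by
        rw [map_one, one_mul]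
        exact h3 (n1 • v.toAdd) ⟨_, rfl⟩)
      rw [one_pow] at this
      exact pow_pred hQ0 (hl0 l _) this
    · rw [h, ← mul_assoc]
      exact (hg _ _ v.toAdd hn10).symm
  · obtain ⟨s', u, z', hu0, hu, hut⟩ := thue hq (by omega) (not_le.1 hqt) z hz'
    obtain ⟨ρ, l, -, p2, -, -, p5, p6⟩ := hc1s 1 (j' • u) (fun _ => rfl)
      (hne1 _ _ (hz _ he) (smul_ne_zero hj0' hu0))
      (by
        have e0 := hut 0
        have e1 := hut 1
        simp only [Pi.smul_apply, nsmul_eq_mul, Int.natAbs_mul, Int.natAbs_natCast]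
        have e2 : 4 * (c1 * (j' * (u 0).natAbs)) ≤ q * j' := by
          nlinarith [Nat.mul_le_mul_right j' e0, Nat.zero_le (j' * (u 0).natAbs)]
        have e3 : 4 * (c1 * (j' * (u 1).natAbs)) ≤ q * j' := by
          nlinarith [Nat.mul_le_mul_right j' e1, Nat.zero_le (j' * (u 1).natAbs)]
        rw [mul_add, mul_add]
        omega)
    have h1 : ∀ v, l v ^ (Q - 1) = 1 := fun v => by
      have := p6 v 1 (by rw [map_one, one_mul]; rfl)
      rw [one_pow] at this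
      exact pow_pred hQ0 (hl0 l _) this
    refine ⟨ρ, l, fun h => p2 ?_, h1, p5⟩
    have e2 : j' • u = s' • r • w + (Q - 1) • z' := by
      rw [hu, hr, hj', smul_add, smul_comm j' s', natCast_zsmul, smul_smul, mul_comm j']
    have e3 : l.toHomUnits (ofAdd w) = 1 := Units.ext h
    rw [e2, ofAdd_add, map_mul, ofAdd_nsmul, map_pow, h1, mul_one, ← l.coe_toHomUnits,
      ofAdd_zsmul, ofAdd_nsmul, map_zpow, map_pow, e3, one_pow, one_zpow, Units.val_one]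

end

end Pool.Agent.Lib.MP_661727_gt.FF
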