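import Mathlib

/-!
Saturation of a rank two group of functions on a curve, duality, and the lemma of Thue.
-/

set_option autoImplicit false
set_option linter.unusedSectionVars false
set_option linter.overlappingInstances false
open Polynomial Module IntermediateField

namespace Pool.Agent.Lib.MP_661727_gt.FF

section
variable {k E : Type} [Field k] [Field E] [Algebra k[X] E] [Algebra (FractionRing k[X]) E]
  [IsScalarTower k[X] (FractionRing k[X]) E] [Algebra k E] [IsScalarTower k k[X] E]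
  [FiniteDimensional (FractionRing k[X]) E]

lemma exists_deg {f : E} (hf : Transcendental k f) :
    ∃ w : E → ℤ, (∀ x y, x ≠ 0 → y ≠ 0 → w (x * y) = w x + w y) ∧ w f ≠ 0 := by
  have hinj : Function.Injective (algebraMap k[X] E) := by
    rw [IsScalarTower.algebraMap_eq k[X] (FractionRing k[X]) E]
    exact (algebraMap (FractionRing k[X]) E).injective.comp (IsFractionRing.injective _ _)
  have : FaithfulSMul k[X] E := (faithfulSMul_iff_algebraMap_injective _ _).2 hinj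
  have : Algebra.IsAlgebraic k[X] E := ⟨fun z =>
    (IsFractionRing.isAlgebraic_iff k[X] (FractionRing k[X]) E).2
      (Algebra.IsAlgebraic.isAlgebraic z)⟩
  have htr : Algebra.trdeg k E = 1 := by
    rw [← trdeg_add_eq k k[X] (A := E), Polynomial.trdeg_of_isDomain, trdeg_eq_zero, add_zero]
  have hb : IsTranscendenceBasis k (fun _ : Unit => f) :=
    AlgebraicIndependent.isTranscendenceBasis_of_trdeg_le_of_finite
      (algebraicIndependent_unique_type_iff.2 hf) (by rw [htr]; simp)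
  have halg := hb.isAlgebraic_field
  rw [Set.range_const] at halg
  have : Algebra.EssFiniteType k[X] (FractionRing k[X]) :=
    .of_isLocalization _ (nonZeroDivisors k[X])
  have : Algebra.EssFiniteType k[X] E := .comp k[X] (FractionRing k[X]) E
  have : Algebra.EssFiniteType k E := .comp k k[X] E
  have : Algebra.EssFiniteType k⟮f⟯ E := .of_comp k k⟮f⟯ E
  have : Module.Finite k⟮f⟯ E := Algebra.finite_of_essFiniteType_of_isAlgebraic
  let e := RatFunc.algEquivOfTranscendental f hf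
  refine ⟨fun x => (e.symm (Algebra.norm k⟮f⟯ x)).intDegree, fun x y hx hy => ?_, ?_⟩
  · simp only [map_mul]
    exact RatFunc.intDegree_mul ((_root_.map_ne_zero _).2 (Algebra.norm_ne_zero_iff.2 hx))
      ((_root_.map_ne_zero _).2 (Algebra.norm_ne_zero_iff.2 hy))
  · have h1 : Algebra.norm k⟮f⟯ f = AdjoinSimple.gen k f ^ finrank k⟮f⟯ E := by
      rw [← Algebra.norm_algebraMap]; rfl
    simp only [h1, map_pow]
    rw [RatFunc.algEquivOfTranscendental_symm_gen, ← RatFunc.algebraMap_X, ← map_pow,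
      RatFunc.intDegree_polynomial, natDegree_X_pow]
    exact_mod_cast finrank_pos.ne'

lemma deg_hom {E : Type} [Field E] (w : E → ℤ)
    (hw : ∀ x y, x ≠ 0 → y ≠ 0 → w (x * y) = w x + w y) (χ : Multiplicative (Fin 2 → ℤ) →* E) :
    (∀ v : Fin 2 → ℤ, w (χ (.ofAdd v)) = v 0 * w (χ (.ofAdd ![1, 0])) +
      v 1 * w (χ (.ofAdd ![0, 1]))) ∧ ∀ (z : E) (n : ℕ), z ≠ 0 → w (z ^ n) = n * w z := by
  have h1 : w 1 = 0 := by
    have := hw 1 1 one_ne_zero one_ne_zero
    rw [mul_one] at this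
    omega
  have hne : ∀ v, χ v ≠ 0 := fun v => ((Group.isUnit v).map χ).ne_zero
  let T : (Fin 2 → ℤ) →+ ℤ :=
    { toFun := fun v => w (χ (.ofAdd v))
      map_zero' := by simpa using h1
      map_add' := fun u v => by rw [ofAdd_add, map_mul, hw _ _ (hne _) (hne _)] }
  refine ⟨fun v => ?_, fun z n hz => ?_⟩
  · have e : v = v 0 • ![1, 0] + v 1 • ![0, 1] := by
      ext i; fin_cases i <;> simp
    have := congrArg T e
    rw [map_add, map_zsmul, map_zsmul] at this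
    exact this
  · induction n with
    | zero => simpa using h1
    | succ n ih => rw [pow_succ, hw _ _ (pow_ne_zero _ hz) hz, ih]; push_cast; ring

/-- roots of the functions inside the field have bounded order -/
theorem sat (χ : Multiplicative (Fin 2 → ℤ) →* E)
    (hχ : ∀ v : Fin 2 → ℤ, v ≠ 0 → Transcendental k (χ (.ofAdd v))) :
    ∃ δ : ℕ, δ ≠ 0 ∧ ∀ (n : ℕ) (z : E) (v : Fin 2 → ℤ), n ≠ 0 → z ^ n = χ (.ofAdd v) →
      ∀ i, (n : ℤ) ∣ δ * v i := by
  have hne : ∀ v, χ v ≠ 0 := fun v => ((Group.isUnit v).map χ).ne_zero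
  obtain ⟨w1, hw1, h1⟩ := exists_deg (hχ ![1, 0] (fun h => by simpa using congrFun h 0))
  obtain ⟨a1, a2⟩ := deg_hom w1 hw1 χ
  obtain ⟨a, ha⟩ : ∃ a, a = w1 (χ (.ofAdd ![1, 0])) := ⟨_, rfl⟩
  obtain ⟨b, hb⟩ : ∃ b, b = w1 (χ (.ofAdd ![0, 1])) := ⟨_, rfl⟩
  rw [← ha] at h1
  obtain ⟨w2, hw2, h2⟩ := exists_deg (hχ ![b, -a] (fun h => h1 (by simpa using congrFun h 1)))
  obtain ⟨b1, b2⟩ := deg_hom w2 hw2 χ
  obtain ⟨c, hc⟩ : ∃ c, c = w2 (χ (.ofAdd ![1, 0])) := ⟨_, rfl⟩
  obtain ⟨d, hd⟩ : ∃ d, d = w2 (χ (.ofAdd ![0, 1])) := ⟨_, rfl⟩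
  rw [← ha, ← hb] at a1
  rw [← hc, ← hd] at b1
  rw [b1] at h2
  simp only [Matrix.cons_val_zero, Matrix.cons_val_one] at h2
  refine ⟨(b * c + -a * d).natAbs, Int.natAbs_ne_zero.2 h2, fun n z v hn hz i => ?_⟩
  have hz0 : z ≠ 0 := by
    rintro rfl
    exact hne _ (by rw [← hz, zero_pow hn])
  have e1 := a2 z n hz0
  have e2 := b2 z n hz0
  rw [hz, a1] at e1
  rw [hz, b1] at e2
  refine Int.dvd_natAbs.1 ?_
  rw [Int.natAbs_mul, Int.natAbs_natCast, ← Int.natAbs_mul, Int.dvd_natAbs]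
  fin_cases i
  · exact ⟨b * w2 z - d * w1 z, by
      show _ * v 0 = _
      linear_combination b * e2 - d * e1⟩
  · exact ⟨c * w1 z - a * w2 z, by
      show _ * v 1 = _
      linear_combination c * e1 - a * e2⟩

end

/-- reduction modulo `n` -/
def red (n : ℕ) : Multiplicative (Fin 2 → ℤ) →* Multiplicative (Fin 2 → ZMod n) :=
  AddMonoidHom.toMultiplicative
    (AddMonoidHom.pi fun i => (Int.castAddHom (ZMod n)).comp (Pi.evalAddMonoidHom _ i))

lemma red_apply (n : ℕ) (w : Fin 2 → ℤ) (i : Fin 2) :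
    (red n (.ofAdd w)).toAdd i = (w i : ZMod n) := rfl

lemma red_surj (n : ℕ) [NeZero n] : Function.Surjective (red n) := fun x => by
  refine ⟨.ofAdd fun i => ((x.toAdd i).val : ℤ), ?_⟩
  refine Multiplicative.toAdd.injective (funext fun i => ?_)
  rw [red_apply]
  simp

lemma red_lift (n : ℕ) [NeZero n] {H : Type} [Group H] (c : Multiplicative (Fin 2 → ℤ) →* H)
    (hc : ∀ w, c w ^ n = 1) :
    ∃ c' : Multiplicative (Fin 2 → ZMod n) →* H, ∀ w, c' (red n w) = c w := by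
  have hker : (red n).ker ≤ c.ker := by
    intro w hw
    have h1 : ∀ i, (n : ℤ) ∣ w.toAdd i := fun i => by
      rw [← ZMod.intCast_zmod_eq_zero_iff_dvd, ← red_apply]
      have : red n w = 1 := hw
      rw [ofAdd_toAdd, this]
      rfl
    choose u hu using h1
    have h2 : w = Multiplicative.ofAdd u ^ n := by
      refine Multiplicative.toAdd.injective (funext fun i => ?_)
      simp [hu]
    rw [MonoidHom.mem_ker, h2, map_pow, hc]
  exact ⟨(red n).liftOfSurjective (red_surj n) ⟨c, hker⟩, fun w =>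
    MonoidHom.liftOfRightInverse_comp_apply _ _ _ _ _⟩

lemma enough (U : Type) [Field U] [IsAlgClosed U] (n : ℕ) [NeZero n] [NeZero (n : U)] :
    HasEnoughRootsOfUnity U (Monoid.exponent (Multiplicative (Fin 2 → ZMod n))) :=
  HasEnoughRootsOfUnity.of_dvd U (Monoid.exponent_dvd_of_forall_pow_eq_one (n := n) fun x => by
    refine Multiplicative.toAdd.injective (funext fun i => ?_)
    simp)

/-- duality: a character that kills the common kernel of a group of characters belongs to it -/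
theorem dual0 {U Γ : Type} [Field U] [IsAlgClosed U] [Group Γ] {n : ℕ} (hn : (n : U) ≠ 0)
    (c : Γ →* (Multiplicative (Fin 2 → ℤ) →* Uˣ)) (hc : ∀ σ w, c σ w ^ n = 1)
    (ψ : Multiplicative (Fin 2 → ℤ) →* Uˣ) (hψ : ∀ w, ψ w ^ n = 1)
    (h : ∀ w, (∀ σ, c σ w = 1) → ψ w = 1) : ∃ σ, c σ = ψ := by
  have hn0 : n ≠ 0 := by rintro rfl; simp at hn
  have : NeZero n := ⟨hn0⟩
  have : NeZero (n : U) := ⟨hn⟩
  have hsurj := red_surj n
  choose c' hc' using fun σ => red_lift n (c σ) (hc σ)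
  obtain ⟨φ, hφ'⟩ := red_lift n ψ hψ
  let Φ : Subgroup (Multiplicative (Fin 2 → ZMod n) →* Uˣ) :=
    { carrier := Set.range c'
      one_mem' := ⟨1, MonoidHom.ext fun x => by
        obtain ⟨w, rfl⟩ := hsurj x
        simp [hc']⟩
      mul_mem' := by
        rintro _ _ ⟨σ, rfl⟩ ⟨τ, rfl⟩
        refine ⟨σ * τ, MonoidHom.ext fun x => ?_⟩
        obtain ⟨w, rfl⟩ := hsurj x
        simp [hc']
      inv_mem' := by
        rintro _ ⟨σ, rfl⟩
        refine ⟨σ⁻¹, MonoidHom.ext fun x => ?_⟩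
        obtain ⟨w, rfl⟩ := hsurj x
        simp [hc'] }
  have := enough U n
  have hφ : φ ∈ Φ := by
    have h3 := CommGroup.mem_subgroupOrderIsoSubgroupMonoidHom_iff U
      ((CommGroup.subgroupOrderIsoSubgroupMonoidHom _ U).symm (OrderDual.toDual Φ)) φ
    rw [OrderIso.apply_symm_apply] at h3
    refine h3.2 fun g hg => ?_
    rw [CommGroup.mem_subgroupOrderIsoSubgroupMonoidHom_symm_iff] at hg
    obtain ⟨w, rfl⟩ := hsurj g
    rw [hφ']
    refine h w fun σ => ?_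
    rw [← hc']
    exact hg _ ⟨σ, rfl⟩
  obtain ⟨σ, rfl⟩ := hφ
  exact ⟨σ, MonoidHom.ext fun w => by rw [← hc', hφ']⟩

/-- characters of order `n` separate points from subgroups that contain all multiples of `n` -/
theorem dual1 (U : Type) [Field U] [IsAlgClosed U] {n : ℕ} (hn : (n : U) ≠ 0)
    (A : AddSubgroup (Fin 2 → ℤ)) (hA : ∀ w, n • w ∈ A) {v : Fin 2 → ℤ} (hv : v ∉ A) :
    ∃ ψ : Multiplicative (Fin 2 → ℤ) →* Uˣ, (∀ w, ψ w ^ n = 1) ∧
      (∀ a ∈ A, ψ (.ofAdd a) = 1) ∧ ψ (.ofAdd v) ≠ 1 := by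
  have hn0 : n ≠ 0 := by rintro rfl; simp at hn
  have : NeZero n := ⟨hn0⟩
  have : NeZero (n : U) := ⟨hn⟩
  have := enough U n
  have hv' : red n (.ofAdd v) ∉ (AddSubgroup.toSubgroup A).map (red n) := by
    rintro ⟨a, ha, e⟩
    have h1 : ∀ i, (n : ℤ) ∣ v i - a.toAdd i := fun i => by
      rw [← ZMod.intCast_eq_intCast_iff_dvd_sub, ← red_apply, ← red_apply, ofAdd_toAdd, e]
    choose u hu using h1
    have h2 : v = n • u + a.toAdd := funext fun i => by
      rw [Pi.add_apply, Pi.smul_apply, nsmul_eq_mul, ← hu, sub_add_cancel]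
    exact hv (h2 ▸ A.add_mem (hA u) ha)
  rw [← CommGroup.forall_monoidHom_apply_eq_one_iff U] at hv'
  push Not at hv'
  obtain ⟨φ, h1, h2⟩ := hv'
  refine ⟨φ.comp (red n), fun w => ?_, fun a ha => h1 _ ⟨_, ha, rfl⟩, h2⟩
  rw [← map_pow]
  exact h1 _ ⟨_, hA w.toAdd, rfl⟩

/-- the lemma of Thue -/
theorem thue {n t : ℕ} (hn : n.Prime) (ht : 0 < t) (htn : t * t < n) (w : Fin 2 → ℤ)
    (hw : ¬ ∀ i, (n : ℤ) ∣ w i) :
    ∃ (s : ℤ) (u z : Fin 2 → ℤ), u ≠ 0 ∧ u = s • w + (n : ℤ) • z ∧ ∀ i, t * (u i).natAbs ≤ n := by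
  have hn0 : (0 : ℤ) < n := by exact_mod_cast hn.pos
  have ht0 : (0 : ℤ) < t := by exact_mod_cast ht
  let R : ℕ → Fin 2 → ℤ := fun s i => (s * w i) % n
  have hR0 : ∀ s i, 0 ≤ R s i := fun s i => Int.emod_nonneg _ hn0.ne'
  have hR1 : ∀ s i, R s i < n := fun s i => Int.emod_lt_of_pos _ hn0
  let f : ℕ → ℤ × ℤ := fun s => (t * R s 0 / n, t * R s 1 / n)
  have hb : ∀ s i, t * R s i / n ∈ Finset.Ico (0 : ℤ) t := fun s i => by
    rw [Finset.mem_Ico]
    refine ⟨Int.ediv_nonneg (mul_nonneg ht0.le (hR0 s i)) hn0.le, ?_⟩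
    rw [Int.ediv_lt_iff_lt_mul hn0]
    exact mul_lt_mul_of_pos_left (hR1 s i) ht0
  obtain ⟨s, hs, s', hs', hne, e⟩ := Finset.exists_ne_map_eq_of_card_lt_of_maps_to
    (s := Finset.range (t * t + 1)) (t := Finset.Ico (0 : ℤ) t ×ˢ Finset.Ico (0 : ℤ) t) (f := f)
    (by simp) (fun s _ => Finset.mem_coe.2 (Finset.mem_product.2 ⟨hb s 0, hb s 1⟩))
  have e' : ∀ i, t * R s i / n = t * R s' i / n := fun i => by
    fin_cases i
    · exact congrArg Prod.fst e
    · exact congrArg Prod.snd e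
  have hu : R s - R s' = ((s : ℤ) - s') • w + (n : ℤ) • fun i => s' * w i / n - s * w i / n := by
    ext i
    simp only [R, Pi.sub_apply, Pi.add_apply, Pi.smul_apply, smul_eq_mul, Int.emod_def]
    ring
  refine ⟨s - s', R s - R s', _, fun h => hw fun i => ?_, hu, fun i => ?_⟩
  · have h1 := congrFun (h.symm.trans hu) i
    simp only [Pi.zero_apply, Pi.add_apply, Pi.smul_apply, smul_eq_mul] at h1
    have h2 : (n : ℤ) ∣ ((s : ℤ) - s') * w i := ⟨_, by rw [eq_neg_of_add_eq_zero_left h1.symm, ← mul_neg]⟩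
    refine ((Nat.prime_iff_prime_int.1 hn).dvd_or_dvd h2).resolve_left fun h3 => ?_
    rw [Finset.mem_range] at hs hs'
    have := Int.eq_zero_of_abs_lt_dvd h3 (by rw [abs_lt]; constructor <;> omega)
    omega
  · have h1 := Int.mul_ediv_add_emod (t * R s i) n
    have h2 := Int.mul_ediv_add_emod (t * R s' i) n
    have h3 := Int.emod_nonneg (t * R s i) hn0.ne'
    have h4 := Int.emod_nonneg (t * R s' i) hn0.ne'
    have h5 := Int.emod_lt_of_pos (t * R s i) hn0
    have h6 := Int.emod_lt_of_pos (t * R s' i) hn0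
    rw [e' i] at h1
    have h7 : |(t : ℤ) * (R s i - R s' i)| ≤ n := by
      rw [abs_le, mul_sub]; constructor <;> linarith
    rw [abs_mul, abs_of_pos ht0] at h7
    zify
    exact h7

/-- reduction to prime order -/
lemma prime_order {M : ℕ} (hM : M ≠ 0) (w : Fin 2 → ℤ) (hw : ¬ ∀ i, (M : ℤ) ∣ w i) :
    ∃ (p j r : ℕ) (z : Fin 2 → ℤ), p.Prime ∧ M = p * j ∧ r • w = j • z ∧ ¬ ∀ i, (p : ℤ) ∣ z i := by
  let x : Fin 2 → ZMod M := fun i => (w i : ZMod M)
  have hx : ∀ r : ℕ, r • x = 0 ↔ ∀ i, (M : ℤ) ∣ r * w i := fun r => by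
    rw [funext_iff]
    refine forall_congr' fun i => ?_
    rw [← ZMod.intCast_zmod_eq_zero_iff_dvd]
    simp [x]
  have h1 : addOrderOf x ∣ M := addOrderOf_dvd_of_nsmul_eq_zero ((hx M).2 fun i => dvd_mul_right _ _)
  have h2 : addOrderOf x ≠ 1 := fun h => hw (by
    have := (hx 1).1 (h ▸ addOrderOf_nsmul_eq_zero x)
    simpa using this)
  have hp := Nat.minFac_prime h2
  obtain ⟨r, hr⟩ := Nat.minFac_dvd (addOrderOf x)
  obtain ⟨j, hj⟩ := (Nat.minFac_dvd (addOrderOf x)).trans h1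
  obtain ⟨p, hp'⟩ : ∃ p, p = (addOrderOf x).minFac := ⟨_, rfl⟩
  rw [← hp'] at hp hr hj
  have hp0 : (p : ℤ) ≠ 0 := by exact_mod_cast hp.ne_zero
  have h3 : ∀ i, (j : ℤ) ∣ r * w i := fun i => by
    have := (hx _).1 (addOrderOf_nsmul_eq_zero x) i
    rw [hr, hj, Nat.cast_mul, Nat.cast_mul, mul_assoc] at this
    exact (mul_dvd_mul_iff_left hp0).1 this
  choose z hz using h3
  refine ⟨p, j, r, z, hp, hj, funext fun i => by simpa using hz i, fun h => ?_⟩
  have h4 : addOrderOf x ∣ r := addOrderOf_dvd_of_nsmul_eq_zero ((hx r).2 fun i => by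
    rw [hz, hj, Nat.cast_mul, mul_comm]
    exact mul_dvd_mul_left _ (h i))
  have hr0 : r ≠ 0 := by
    rintro rfl
    rw [hr] at h1
    exact hM (by simpa using h1)
  have := Nat.le_of_dvd (Nat.pos_of_ne_zero hr0) h4
  have := hp.two_le
  have := Nat.pos_of_ne_zero hr0
  nlinarith

end Pool.Agent.Lib.MP_661727_gt.FF
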