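import Pool.Agent.Lib.MP_661727_gt.FF.Cheb
import Pool.Agent.Lib.MP_661727_gt.FF.Sat

/-!
The common kernel of the characters given by the points of a Kummer cover of a curve.
-/

set_option autoImplicit false
set_option linter.unusedSectionVars false
set_option linter.overlappingInstances false
open Polynomial Module Multiplicative

namespace Pool.Agent.Lib.MP_661727_gt.FF

open Pool.Agent.Lib.MP_587b89_lc

lemma sep_of_pow {K U : Type} [Field K] [Field U] [Algebra K U] {n : ℕ} (hn : (n : U) ≠ 0)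
    {z : U} (hz : z ≠ 0) {a : K} (h : z ^ n = algebraMap K U a) : IsSeparable K z := by
  have hn' : (n : K) ≠ 0 := fun e => hn (by rw [← map_natCast (algebraMap K U), e, map_zero])
  have ha : a ≠ 0 := by
    rintro rfl
    rw [map_zero] at h
    exact pow_ne_zero _ hz h
  exact (separable_X_pow_sub_C a hn' ha).of_dvd (minpoly.dvd K z (by simp [h]))

lemma root_mem {k U : Type} [Field k] [IsAlgClosed k] [Field U] [Algebra k U] {z : U}
    (h : IsAlgebraic k z) : ∃ ζ : k, algebraMap k U ζ = z :=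
  minpoly.mem_range_of_degree_eq_one k z
    (IsAlgClosed.degree_eq_one_of_irreducible k (minpoly.irreducible h.isIntegral))

lemma mono (U : Type) [CommMonoid U] (μ : Multiplicative (Fin 2 → ℤ) →* U) (u : Fin 2 → ℤ) :
    ∃ z0 ∈ ({μ (ofAdd ![1, 0]), μ (ofAdd ![-1, 0]), μ (ofAdd ![0, 1]), μ (ofAdd ![0, -1])} : Set U),
    ∃ z1 ∈ ({μ (ofAdd ![1, 0]), μ (ofAdd ![-1, 0]), μ (ofAdd ![0, 1]), μ (ofAdd ![0, -1])} : Set U),
      μ (ofAdd u) = z0 ^ (u 0).natAbs * z1 ^ (u 1).natAbs := by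
  have key : ∀ x y : ℤ, u 0 = (u 0).natAbs * x → u 1 = (u 1).natAbs * y → μ (ofAdd u) =
      μ (ofAdd ![x, 0]) ^ (u 0).natAbs * μ (ofAdd ![0, y]) ^ (u 1).natAbs := by
    intro x y e0 e1
    rw [← map_pow μ, ← map_pow μ, ← map_mul, ← ofAdd_nsmul, ← ofAdd_nsmul, ← ofAdd_add]
    refine congrArg (fun w => μ (ofAdd w)) (funext fun i => ?_)
    fin_cases i
    · simpa using e0
    · simpa using e1
  rcases Int.natAbs_eq (u 0) with h0 | h0 <;> rcases Int.natAbs_eq (u 1) with h1 | h1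
  · exact ⟨_, by simp, _, by simp, key 1 1 (by omega) (by omega)⟩
  · exact ⟨_, by simp, _, by simp, key 1 (-1) (by omega) (by omega)⟩
  · exact ⟨_, by simp, _, by simp, key (-1) 1 (by omega) (by omega)⟩
  · exact ⟨_, by simp, _, by simp, key (-1) (-1) (by omega) (by omega)⟩

section
variable {k U : Type} [Field k] [Field U] [Algebra k[X] U] [Algebra (FractionRing k[X]) U]
  [IsScalarTower k[X] (FractionRing k[X]) U] [IsAlgClosed k] [IsAlgClosure (FractionRing k[X]) U]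
  [Algebra k U] [IsScalarTower k k[X] U]

lemma const_mem (K : IntermediateField (FractionRing k[X]) U) (c : k) : algebraMap k U c ∈ K := by
  rw [IsScalarTower.algebraMap_apply k k[X] U,
    IsScalarTower.algebraMap_apply k[X] (FractionRing k[X]) U]
  exact K.algebraMap_mem _

lemma unity {n : ℕ} (hn : n ≠ 0) {z : U} (h : z ^ n = 1) : ∃ ζ : k, algebraMap k U ζ = z :=
  root_mem (IsAlgebraic.of_pow (Nat.pos_of_ne_zero hn) (by rw [h]; exact isAlgebraic_one))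

/-- Kummer theory -/
theorem kum0 (K : IntermediateField (FractionRing k[X]) U) {n : ℕ} (hn : (n : U) ≠ 0)
    (μ : Multiplicative (Fin 2 → ℤ) →* U) (hμ : ∀ w, μ w ^ n ∈ K)
    (ψ : Multiplicative (Fin 2 → ℤ) →* Uˣ) (hψ : ∀ w, ψ w ^ n = 1)
    (h : ∀ w, μ w ∈ K → ψ w = 1) : ∃ σ : U ≃ₐ[FractionRing k[X]] U, (∀ z ∈ K, σ z = z) ∧
      ∀ w, σ (μ w) = ψ w * μ w := by
  have : IsAlgClosed U := IsAlgClosure.isAlgClosed (FractionRing k[X])
  have hn0 : n ≠ 0 := by rintro rfl; simp at hn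
  have hne : ∀ w, μ w ≠ 0 := fun w => ((Group.isUnit w).map μ).ne_zero
  have hfix : ∀ (σ : U ≃ₐ[K] U), ∀ z ∈ K, σ z = z := fun σ z hz => σ.commutes ⟨z, hz⟩
  have hq : ∀ (σ : U ≃ₐ[K] U) w, (σ (μ w) / μ w) ^ n = 1 := fun σ w => by
    rw [div_pow, ← map_pow, hfix σ _ (hμ w), div_self (pow_ne_zero _ (hne w))]
  let c0 : (U ≃ₐ[K] U) → Multiplicative (Fin 2 → ℤ) →* U := fun σ =>
    { toFun := fun w => σ (μ w) / μ w
      map_one' := by simp
      map_mul' := fun x y => by rw [map_mul, map_mul, mul_div_mul_comm] }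
  have hc0 : ∀ σ w, ((c0 σ).toHomUnits w : U) = σ (μ w) / μ w := fun _ _ => rfl
  let c : (U ≃ₐ[K] U) →* (Multiplicative (Fin 2 → ℤ) →* Uˣ) :=
    MonoidHom.mk' (fun σ => (c0 σ).toHomUnits) fun σ τ => MonoidHom.ext fun w => Units.ext (by
      rw [MonoidHom.mul_apply, Units.val_mul, hc0, hc0, hc0, AlgEquiv.mul_apply]
      obtain ⟨ζ, hζ⟩ := unity (k := k) hn0 (hq τ w)
      rw [← hζ, (eq_div_iff (hne w)).1 hζ |>.symm, map_mul, hfix σ _ (const_mem K ζ)]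
      ring)
  have hc : ∀ σ w, (c σ w : U) = σ (μ w) / μ w := fun _ _ => rfl
  have hc1 : ∀ σ w, c σ w = 1 ↔ σ (μ w) = μ w := fun σ w => by
    rw [← Units.val_eq_one, hc, div_eq_one_iff_eq (hne w)]
  have : IsAlgClosure K U :=
    ⟨inferInstance, Algebra.IsAlgebraic.tower_top (K := FractionRing k[X]) K⟩
  obtain ⟨σ, hσ⟩ := dual0 hn c (fun σ w => Units.ext (by
    rw [Units.val_pow_eq_pow_val, hc, hq, Units.val_one])) ψ hψ (fun w hw => h w (by
      by_contra hcon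
      have hs : IsSeparable K (μ w) := sep_of_pow hn (hne _) (a := ⟨_, hμ _⟩) rfl
      obtain ⟨y, hy, hy'⟩ := (notMem_iff_exists_ne_and_isConjRoot hs
        (IsAlgClosed.splits _)).1 (fun h => by
          obtain ⟨x, hx⟩ := Algebra.mem_bot.1 h
          exact hcon (hx ▸ x.2))
      obtain ⟨σ, hσ⟩ := hy'.symm.exists_algEquiv
      exact hy (((hc1 σ _).1 (hw σ)).symm.trans hσ)))
  refine ⟨σ.restrictScalars _, hfix σ, fun w => ?_⟩
  rw [← hσ, hc, div_mul_cancel₀ _ (hne w)]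
  rfl

theorem kum (K : IntermediateField (FractionRing k[X]) U) {n : ℕ} (hn : (n : U) ≠ 0)
    (μ : Multiplicative (Fin 2 → ℤ) →* U) (hμ : ∀ w, μ w ^ n ∈ K)
    (A : AddSubgroup (Fin 2 → ℤ)) (hA : ∀ w, μ (ofAdd w) ∈ K → w ∈ A) {v : Fin 2 → ℤ}
    (hv : v ∉ A) : ∃ (σ : U ≃ₐ[FractionRing k[X]] U) (ζ : k), ζ ≠ 1 ∧ (∀ z ∈ K, σ z = z) ∧
      (∀ a ∈ A, σ (μ (ofAdd a)) = μ (ofAdd a)) ∧
      σ (μ (ofAdd v)) = algebraMap k U ζ * μ (ofAdd v) := by
  have : IsAlgClosed U := IsAlgClosure.isAlgClosed (FractionRing k[X])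
  have hn0 : n ≠ 0 := by rintro rfl; simp at hn
  obtain ⟨ψ, h1, h2, h3⟩ := dual1 U hn A
    (fun w => hA _ (by rw [ofAdd_nsmul, map_pow]; exact hμ _)) hv
  obtain ⟨σ, h4, h5⟩ := kum0 K hn μ hμ ψ h1 fun w hw => h2 w.toAdd (hA _ hw)
  obtain ⟨ζ, hζ⟩ := unity (k := k) hn0 (z := (ψ (ofAdd v) : U))
    (by rw [← Units.val_pow_eq_pow_val, h1, Units.val_one])
  refine ⟨σ, ζ, ?_, h4, fun a ha => by rw [h5, h2 a ha, Units.val_one, one_mul], by rw [h5, hζ]⟩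
  rintro rfl
  exact h3 (Units.ext (by rw [← hζ, map_one, Units.val_one]))

/-- correction of a Frobenius lift -/
theorem fix_frob (τ : k →+* k) (Φ : U →+* U)
    (hΦ : ∀ r : k[X], Φ (algebraMap k[X] U r) = algebraMap k[X] U (r.map τ))
    (K : IntermediateField (FractionRing k[X]) U) {n : ℕ} (hn : (n : U) ≠ 0)
    (μ : Multiplicative (Fin 2 → ℤ) →* U) (hμ : ∀ w, μ w ^ n ∈ K)
    (h1 : ∀ w, Φ (μ w ^ n) = μ w ^ n) (h2 : ∀ w, μ w ∈ K → Φ (μ w) = μ w) :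
    ∃ Φ' : U →+* U, (∀ r : k[X], Φ' (algebraMap k[X] U r) = algebraMap k[X] U (r.map τ)) ∧
      (∀ z ∈ K, Φ z = z → Φ' z = z) ∧ ∀ w, Φ' (μ w) = μ w := by
  have hne : ∀ w, μ w ≠ 0 := fun w => ((Group.isUnit w).map μ).ne_zero
  let c0 : Multiplicative (Fin 2 → ℤ) →* U :=
    { toFun := fun w => Φ (μ w) / μ w
      map_one' := by simp
      map_mul' := fun x y => by rw [map_mul, map_mul, mul_div_mul_comm] }
  have hc0 : ∀ w, (c0.toHomUnits w : U) = Φ (μ w) / μ w := fun _ => rfl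
  obtain ⟨σ, h3, h4⟩ := kum0 K hn μ hμ c0.toHomUnits
    (fun w => Units.ext (by
      rw [Units.val_pow_eq_pow_val, hc0, div_pow, ← map_pow, h1, div_self (pow_ne_zero _ (hne w)),
        Units.val_one]))
    (fun w hw => Units.ext (by rw [hc0, h2 w hw, div_self (hne w), Units.val_one]))
  refine ⟨(σ.symm : U →+* U).comp Φ, fun r => ?_, fun z hz e => ?_, fun w => ?_⟩
  · rw [RingHom.comp_apply, hΦ, IsScalarTower.algebraMap_apply k[X] (FractionRing k[X]) U]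
    exact σ.symm.commutes _
  · rw [RingHom.comp_apply, e]
    exact σ.symm_apply_eq.2 (h3 z hz).symm
  · refine σ.symm_apply_eq.2 ?_
    rw [h4, hc0, div_mul_cancel₀ _ (hne w)]

theorem cheb2 (p : ℕ) [Fact p.Prime] [CharP k p] (hk : ∀ c : k, ∃ N, 0 < N ∧ c ^ p ^ N = c)
    {e : ℕ} (he : e ≠ 0) (Φ : U →+* U)
    (hΦ : ∀ r : k[X], Φ (algebraMap k[X] U r) = algebraMap k[X] U (r.map (iterateFrobenius k p e)))
    {A : Type} [CommRing A] {ι : Type} [Finite ι] (a : ι → A)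
    (ha : Subring.closure (Set.range a) = ⊤) (κ : A →+* U)
    (hsep : ∀ x, IsSeparable (FractionRing k[X]) (κ x)) (hfix : ∀ x, Φ (κ x) = κ x)
    {g : A} (hg : κ g ≠ 0) {n : ℕ} (hn : (n : U) ≠ 0) (μ : Multiplicative (Fin 2 → ℤ) →* U)
    (hμ : ∀ v, ∃ x, μ v ^ n = κ x) (hμ' : ∀ v, Φ (μ v) = μ v) :
    ∃ c : ℕ, ∀ (s : ℕ) (σ : U ≃ₐ[FractionRing k[X]] U) (u : Fin 2 → ℤ), (∀ x, σ (κ x) = κ x) →
      μ (ofAdd u) ≠ 1 → c * ((u 0).natAbs + (u 1).natAbs + 1) ≤ p ^ (e * s) →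
      ∃ (ρ : A →+* k) (l : Multiplicative (Fin 2 → ℤ) →* k), ρ g ≠ 0 ∧ l (ofAdd u) ≠ 1 ∧
        (∀ x, ρ x ^ p ^ (e * s) = ρ x) ∧ (∀ x c, κ x = algebraMap k U c → ρ x = c) ∧
        (∀ x v, κ x = μ v → ρ x = l v) ∧ ∀ (w) (ζ : k), σ (μ w) = algebraMap k U ζ * μ w →
          l w ^ p ^ (e * s) = ζ ^ p ^ (e * s) * l w := by
  have hne : ∀ w, μ w ≠ 0 := fun w => ((Group.isUnit w).map μ).ne_zero
  have hsμ : ∀ w, IsSeparable (FractionRing k[X]) (μ w) := fun w => by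
    obtain ⟨x, hx⟩ := hμ w
    exact IsSeparable.of_algebra_isSeparable_of_isSeparable _
      (E := separableClosure (FractionRing k[X]) U) (sep_of_pow hn (hne w) (a := ⟨κ x, hsep _⟩) hx)
  obtain ⟨Y0, hY0⟩ : ∃ Y0 : Set U, Y0 = {μ (ofAdd ![1, 0]), μ (ofAdd ![-1, 0]), μ (ofAdd ![0, 1]),
    μ (ofAdd ![0, -1])} := ⟨_, rfl⟩
  obtain ⟨Y, hY⟩ : ∃ Y : Set U, Y = insert (κ g) (Y0 ∪ Set.range fun i => κ (a i)) := ⟨_, rfl⟩
  have hfin : Y.Finite := by
    rw [hY, hY0]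
    exact ((Set.toFinite _).union (Set.finite_range _)).insert _
  have hYc : ∀ z ∈ Y, (∃ x, z = κ x) ∨ ∃ w, z = μ w := by
    intro z hz
    rw [hY, hY0] at hz
    rcases hz with rfl | (rfl | rfl | rfl | rfl) | ⟨i, rfl⟩
    exacts [.inl ⟨_, rfl⟩, .inr ⟨_, rfl⟩, .inr ⟨_, rfl⟩, .inr ⟨_, rfl⟩, .inr ⟨_, rfl⟩,
      .inl ⟨_, rfl⟩]
  have hY0Y : Y0 ⊆ Y := fun z hz => hY ▸ Set.mem_insert_of_mem _ (.inl hz)
  have := hfin.to_subtype
  obtain ⟨S, hS⟩ : ∃ S, S = Subring.closure (Set.range (Subtype.val : Y → U)) := ⟨_, rfl⟩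
  have hYS : ∀ z ∈ Y, z ∈ S := fun z hz => hS ▸ Subring.subset_closure ⟨⟨z, hz⟩, rfl⟩
  have hm := mono U μ
  rw [← hY0] at hm
  have hκS : ∀ x, κ x ∈ S := fun x => by
    have : Subring.closure (Set.range a) ≤ S.comap κ := Subring.closure_le.2 (by
      rintro _ ⟨i, rfl⟩
      exact hYS _ (hY ▸ Set.mem_insert_of_mem _ (.inr ⟨i, rfl⟩)))
    exact this (ha ▸ Subring.mem_top x)
  have hμS : ∀ w, μ w ∈ S := fun w => by
    obtain ⟨z0, h0, z1, h1, e⟩ := hm w.toAdd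
    rw [ofAdd_toAdd] at e
    rw [e]
    exact mul_mem (pow_mem (hYS _ (hY0Y h0)) _) (pow_mem (hYS _ (hY0Y h1)) _)
  obtain ⟨c, hc⟩ := cheb p hk he Φ hΦ (Subtype.val : Y → U)
    (fun z => by
      rcases hYc z z.2 with ⟨x, h⟩ | ⟨x, h⟩ <;> rw [h]
      exacts [hsep x, hsμ x])
    (fun z => by
      rcases hYc z z.2 with ⟨x, h⟩ | ⟨x, h⟩ <;> rw [h]
      exacts [hfix x, hμ' x])
    ⟨κ g, hY ▸ Set.mem_insert _ _⟩ hg S hS
  refine ⟨c, fun s σ u hσ hu hle => ?_⟩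
  obtain ⟨z0, h0, z1, h1, e1⟩ := hm u
  obtain ⟨π, p1, p2, p3, p4⟩ := hc s σ ⟨z0, hY0Y h0⟩ ⟨z1, hY0Y h1⟩ _ _ (by rwa [← e1]) hle
  refine ⟨π.comp (κ.codRestrict S hκS), (π : S →* k).comp (μ.codRestrict S hμS),
    p1 ⟨κ g, hκS g⟩ rfl, p2 ⟨_, hμS _⟩ e1, fun x => ?_, fun x c h => p3 ⟨_, hκS x⟩ c h,
    fun x v h => congrArg π (Subtype.ext h), fun w ζ h => p4 ⟨_, hμS w⟩ ζ h⟩
  have := p4 ⟨_, hκS x⟩ 1 (by rw [map_one, one_mul]; exact hσ x)
  rwa [one_pow, one_mul] at this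

lemma periodic_of_finite {R : Type} [Field R] (φ : R →+* R) {f : R}
    (h : (Set.range fun s => (φ ^ s) f).Finite) : ∃ N, 0 < N ∧ (φ ^ N) f = f := by
  have key : ∀ a c : ℕ, a < c → (φ ^ a) f = (φ ^ c) f → ∃ N, 0 < N ∧ (φ ^ N) f = f := by
    intro a c hac e
    obtain ⟨d, rfl⟩ := Nat.exists_eq_add_of_lt hac
    refine ⟨d + 1, Nat.succ_pos _, (φ ^ a).injective ?_⟩
    rw [e, add_assoc, pow_add φ a]
    rfl
  by_contra hcon
  refine Set.infinite_range_of_injective (fun a c e => ?_) h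
  rcases lt_trichotomy a c with h1 | h1 | h1
  · exact absurd (key a c h1 e) hcon
  · exact h1
  · exact absurd (key c a h1 e.symm) hcon

lemma exists_frob (p : ℕ) [Fact p.Prime] [CharP k p] (hk : ∀ c : k, ∃ N, 0 < N ∧ c ^ p ^ N = c)
    (S : Finset U) : ∃ (e : ℕ) (Φ : U →+* U), e ≠ 0 ∧ (∀ r : k[X], Φ (algebraMap k[X] U r) =
      algebraMap k[X] U (r.map (iterateFrobenius k p e))) ∧ ∀ y ∈ S, Φ y = y := by
  have hinj : Function.Injective (algebraMap k[X] U) := by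
    rw [IsScalarTower.algebraMap_eq k[X] (FractionRing k[X]) U]
    exact (algebraMap (FractionRing k[X]) U).injective.comp (IsFractionRing.injective _ _)
  let Φ1 : FractionRing k[X] ≃+* FractionRing k[X] :=
    IsFractionRing.ringEquivOfRingEquiv (mapEquiv (iterateFrobeniusEquiv k p 1))
  let Φ : U →+* U := (IsAlgClosure.equivOfEquiv U U Φ1 : U →+* U)
  have hΦ : ∀ r : k[X], Φ (algebraMap k[X] U r) =
      algebraMap k[X] U (r.map (iterateFrobenius k p 1)) := by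
    intro r
    rw [IsScalarTower.algebraMap_apply k[X] (FractionRing k[X]) U,
      IsScalarTower.algebraMap_apply k[X] (FractionRing k[X]) U]
    show IsAlgClosure.equivOfEquiv U U Φ1 _ = _
    rw [IsAlgClosure.equivOfEquiv_algebraMap, IsFractionRing.ringEquivOfRingEquiv_algebraMap]
    rfl
  obtain ⟨N, hN, hN'⟩ := common_period Φ S fun y _ => by
    have halg : IsAlgebraic k[X] y := (IsFractionRing.isAlgebraic_iff k[X] (FractionRing k[X]) U).2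
      (IsAlgClosure.isAlgebraic.isAlgebraic y)
    obtain ⟨P, hP, hPy⟩ := halg
    refine periodic_of_finite Φ (finite_orbit Φ (P := P.map (algebraMap k[X] U))
      ((Polynomial.map_ne_zero_iff hinj).2 hP) (fun a ha => ?_) (by rw [eval_map]; exact hPy))
    obtain ⟨n, -, rfl⟩ := mem_coeffs_iff.1 ha
    obtain ⟨N, hN, hN'⟩ := common_period (iterateFrobenius k p 1) (P.coeff n).coeffs
      fun c _ => by simpa only [iter_pow, one_mul, iterateFrobenius_def] using hk c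
    refine ⟨N, hN, ?_⟩
    rw [coeff_map, pow_map p Φ hΦ, ← iter_pow, map_fix _ _ hN']
  exact ⟨1 * N, Φ ^ N, by omega, pow_map p Φ hΦ N, hN'⟩

end

end Pool.Agent.Lib.MP_661727_gt.FF
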