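import Pool.Agent.Lib.MP_587b89_lc.Weil

/-!
Many fixed points of every twisted Frobenius on a Galois cover of the affine line.
-/

set_option autoImplicit false
set_option linter.unusedSectionVars false
set_option linter.overlappingInstances false
open Polynomial Module WithZero

namespace Pool.Agent.Lib.MP_661727_gt.FF

open Pool.Agent.Lib.MP_587b89_lc

section
variable {k : Type} [Field k] {B : Type} [CommRing B] [Algebra k[X] B] {D : ℕ}
  (b : Basis (Fin D) k[X] B) [IsDomain B] [Algebra k B] [IsScalarTower k k[X] B]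

include b in
theorem many (G : Type) [Group G] [Finite G] [MulSemiringAction G B] [SMulCommClass G k[X] B]
    [Algebra.IsInvariant k[X] B G] [IsAlgClosed k] [IsDedekindDomain B] (p : ℕ) [Fact p.Prime]
    [CharP k p] {e : ℕ} (he : e ≠ 0) (φ : ℕ → B →+* B)
    (hφ : ∀ s (r : k[X]), φ s (algebraMap k[X] B r) =
      algebraMap k[X] B (r.map (iterateFrobenius k p (e * s))))
    (hfin : ∀ f, (Set.range fun s => φ s f).Finite) :
    ∃ n C s0 : ℕ, ∀ s, s0 ≤ s → ∀ σ : G, ∃ T : Finset (B →ₐ[k] k),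
      p ^ (e * s) ≤ n * T.card + C ∧ ∀ π ∈ T, ∀ f, π (φ s (σ • f)) = π f ^ p ^ (e * s) := by
  classical
  have := Fintype.ofFinite G
  have hp : 1 < p := (Fact.out : p.Prime).one_lt
  choose π0 hπ0 using exists_point b
  obtain ⟨v, hv⟩ := exists_good k (π0 0) (by
    intro h
    have h1 : algebraMap k[X] B X ∈ RingHom.ker (π0 0) := hπ0 0
    rw [h, Ideal.mem_bot, map_eq_zero_iff _ (inj_poly b)] at h1
    exact X_ne_zero h1)
  obtain ⟨c1, hc1⟩ : ∃ c1, ∀ s (σ : G) i, dg b (φ s (σ • b i)) ≤ c1 := by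
    have : (⋃ x : G × Fin D, Set.range fun s => φ s (x.1 • b x.2)).Finite :=
      Set.finite_iUnion fun x => hfin _
    obtain ⟨c1, hc1⟩ := (this.image (dg b)).bddAbove
    exact ⟨c1, fun s σ i => hc1 ⟨_, Set.mem_iUnion.2 ⟨(σ, i), s, rfl⟩, rfl⟩⟩
  have hdg : ∀ s (σ : G) f, dg b (φ s (σ • f)) ≤ dg b f + c1 := by
    intro s σ f
    conv_lhs => rw [← b.sum_repr f, Finset.smul_sum, map_sum]
    refine dg_sum_le b _ _ fun i _ => ?_
    rw [smul_comm, Algebra.smul_def, map_mul, hφ, ← Algebra.smul_def]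
    exact (dg_smul_le b _ _).trans
      (Nat.add_le_add (natDegree_map_le.trans (le_dg b f i)) (hc1 s σ i))
  obtain ⟨n, hn⟩ : ∃ n, Fintype.card G = n + 1 :=
    Nat.exists_eq_succ_of_ne_zero Fintype.card_ne_zero
  obtain ⟨C, s0, hup⟩ := upper b p hv c1 (n + 1)
  refine ⟨n + 1, n * C, s0 + 1, fun s hs σ0 => ?_⟩
  have hes : s ≤ e * s := Nat.le_mul_of_pos_left s (Nat.pos_of_ne_zero he)
  obtain ⟨Q, hQ⟩ : ∃ Q, Q = p ^ (e * s) := ⟨_, rfl⟩
  obtain ⟨S, hS, hSx⟩ := exists_fixed (k := k) p (n := e * s) (by omega)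
  choose! γ hγ using exists_twist (G := G) p (e * s) (φ s) (hφ s)
  choose r hr using fun π : B →ₐ[k] k => trans_point G (π0 (π (algebraMap k[X] B X))) π (hπ0 _)
  have htw : ∀ x (h : G), twist (π0 x) h (algebraMap k[X] B X) = x := fun x h => by
    rw [twist_apply, smul_algebraMap, hπ0]
  let J : k × G → G := fun x => γ (twist (π0 x.1) x.2) * (r (twist (π0 x.1) x.2))⁻¹ * x.2
  have hJ : ∀ x : k × G, x.1 ∈ S → ∀ f,
      twist (π0 x.1) x.2 (φ s (J x • f)) = twist (π0 x.1) x.2 f ^ p ^ (e * s) := by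
    intro x hx f
    simp only [J]
    rw [mul_assoc, mul_smul, hγ _ (by rw [htw]; exact hSx _ hx), hr, htw, mul_smul,
      smul_inv_smul, twist_apply]
  have hfib : ∀ σ : G, ∃ T : Finset (B →ₐ[k] k), ((S ×ˢ Finset.univ).filter (J · = σ)).card =
      T.card ∧ ∀ π ∈ T, ∀ f, π (φ s (σ • f)) = π f ^ p ^ (e * s) := by
    intro σ
    refine ⟨((S ×ˢ Finset.univ).filter (J · = σ)).image fun x => twist (π0 x.1) x.2, ?_, ?_⟩
    · refine (Finset.card_image_of_injOn fun x hx y hy hxy => ?_).symm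
      have h1 : x.1 = y.1 := by rw [← htw x.1 x.2, ← htw y.1 y.2]; exact AlgHom.congr_fun hxy _
      have h2 := (Finset.mem_filter.1 hx).2.trans (Finset.mem_filter.1 hy).2.symm
      simp only [J] at h2
      have h3 : twist (π0 x.1) x.2 = twist (π0 y.1) y.2 := hxy
      rw [h3] at h2
      exact Prod.ext h1 (mul_left_cancel h2)
    · intro π hπ f
      obtain ⟨x, hx, rfl⟩ := Finset.mem_image.1 hπ
      obtain ⟨h1, rfl⟩ := Finset.mem_filter.1 hx
      exact hJ x (Finset.mem_product.1 h1).1 f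
  have hsum := Finset.card_eq_sum_card_fiberwise (s := S ×ˢ Finset.univ) (t := Finset.univ)
    (f := J) (fun _ _ => Finset.mem_univ _)
  rw [Finset.card_product, hS, Finset.card_univ, hn, ← hQ,
    ← Finset.add_sum_erase _ _ (Finset.mem_univ σ0)] at hsum
  have h2 : (n + 1) * ∑ σ ∈ Finset.univ.erase σ0,
      ((S ×ˢ Finset.univ).filter (J · = σ)).card ≤ n * ((n + 1 + 1) * Q + C) := by
    rw [Finset.mul_sum]
    refine (Finset.sum_le_card_nsmul _ _ ((n + 1 + 1) * Q + C) fun σ _ => ?_).trans ?_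
    · obtain ⟨T, hT, hT'⟩ := hfib σ
      rw [hT, hQ]
      exact hup (e * s) (by omega) (fun f => φ s (σ • f)) (hdg s σ) T hT'
    · rw [Finset.card_erase_of_mem (Finset.mem_univ _), Finset.card_univ, hn]
      simp
  obtain ⟨T, hT, hT'⟩ := hfib σ0
  refine ⟨T, ?_, hT'⟩
  rw [← hQ, ← hT]
  nlinarith

/-- the degree of the test element -/
lemma dg_test (x0 x1 x2 h : B) {c : ℕ} (h0 : dg b x0 ≤ c) (h1 : dg b x1 ≤ c) (h2 : dg b x2 ≤ c)
    (hh : dg b h ≤ c) (hc : c0 b ≤ c) (m n : ℕ) :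
    dg b (h * x0 * (x1 ^ m * x2 ^ n - h ^ (m + n))) ≤ 7 * c * (m + n + 1) := by
  have e1 : dg b (x1 ^ m) ≤ m * (c + c) + c :=
    (dg_pow_le b _ _).trans (by gcongr)
  have e2 : dg b (x2 ^ n) ≤ n * (c + c) + c :=
    (dg_pow_le b _ _).trans (by gcongr)
  have e3 : dg b (h ^ (m + n)) ≤ (m + n) * (c + c) + c :=
    (dg_pow_le b _ _).trans (by gcongr)
  have e4 : dg b (x1 ^ m * x2 ^ n - h ^ (m + n)) ≤ (m + n) * (c + c) + 3 * c := by
    rw [sub_eq_add_neg, ← neg_one_smul k (h ^ (m + n))]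
    refine dg_add_le b ((dg_mul_le b _ _).trans ?_) ((dg_csmul_le b _ _).trans ?_)
    · nlinarith
    · omega
  have e5 := dg_mul_le b h x0
  have e6 := dg_mul_le b (h * x0) (x1 ^ m * x2 ^ n - h ^ (m + n))
  nlinarith [Nat.zero_le (c * m), Nat.zero_le (c * n)]

end

/-- the Galois case: a point with given twist at which a test element does not vanish -/
theorem gal_many {k : Type} [Field k] [IsAlgClosed k] (p : ℕ) [Fact p.Prime] [CharP k p]
    {e : ℕ} (he : e ≠ 0) (hk : ∀ c : k, ∃ N, 0 < N ∧ c ^ p ^ N = c)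
    {M : Type} [Field M] [Algebra k[X] M] [Algebra (FractionRing k[X]) M] [Algebra k M]
    [IsScalarTower k[X] (FractionRing k[X]) M] [IsScalarTower k k[X] M]
    [FiniteDimensional (FractionRing k[X]) M] [IsGalois (FractionRing k[X]) M] (Φ : M →+* M)
    (hΦ : ∀ r : k[X], Φ (algebraMap k[X] M r) =
      algebraMap k[X] M (r.map (iterateFrobenius k p e)))
    {ι : Type} [Finite ι] (x : ι → integralClosure k[X] M) (h : integralClosure k[X] M)
    (hh : h ≠ 0) (i0 : ι) (h0 : x i0 ≠ 0) :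
    ∃ c : ℕ, ∀ (s : ℕ) (σ : M ≃ₐ[FractionRing k[X]] M) (i j : ι) (m n : ℕ),
      x i ^ m * x j ^ n ≠ h ^ (m + n) → c * (m + n + 1) ≤ p ^ (e * s) →
      ∃ π : integralClosure k[X] M →ₐ[k] k, π h ≠ 0 ∧ π (x i0) ≠ 0 ∧
        π (x i) ^ m * π (x j) ^ n ≠ π h ^ (m + n) ∧
        ∀ f g : integralClosure k[X] M, (Φ ^ s) (σ f) = g → π g = π f ^ p ^ (e * s) := by
  have hp : 1 < p := (Fact.out : p.Prime).one_lt
  have hinj : Function.Injective (algebraMap k[X] M) := by
    rw [IsScalarTower.algebraMap_eq k[X] (FractionRing k[X]) M]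
    exact (algebraMap (FractionRing k[X]) M).injective.comp (IsFractionRing.injective _ _)
  have : FaithfulSMul k[X] M := (faithfulSMul_iff_algebraMap_injective _ _).2 hinj
  have := IsIntegralClosure.isDedekindDomain k[X] (FractionRing k[X]) M (integralClosure k[X] M)
  have := IsIntegralClosure.finite k[X] (FractionRing k[X]) M (integralClosure k[X] M)
  have := IsIntegralClosure.module_free k[X] (FractionRing k[X]) M (integralClosure k[X] M)
  have := IsIntegralClosure.isFractionRing_of_finite_extension k[X] (FractionRing k[X]) M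
    (integralClosure k[X] M)
  have := Algebra.isInvariant_of_isGalois' k[X] (FractionRing k[X]) M (integralClosure k[X] M)
  have : Finite (integralClosure k[X] M ≃ₐ[k[X]] integralClosure k[X] M) :=
    Finite.of_equiv _ (galRestrict k[X] (FractionRing k[X]) M (integralClosure k[X] M)).toEquiv
  let φ : integralClosure k[X] M →+* integralClosure k[X] M :=
    (Φ.comp (integralClosure k[X] M).val.toRingHom).codRestrict (integralClosure k[X] M)
      fun f => IsIntegral.map_of_comp_eq (mapRingHom (iterateFrobenius k p e)) Φ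
        (RingHom.ext fun r => (hΦ r).symm) f.2
  have hφΦ : ∀ s (f : integralClosure k[X] M), (((φ ^ s) f : integralClosure k[X] M) : M) =
      (Φ ^ s) f := by
    intro s f
    induction s with
    | zero => simp
    | succ s ih =>
      rw [pow_succ', pow_succ', RingHom.mul_def, RingHom.mul_def, RingHom.comp_apply,
        RingHom.comp_apply, ← ih]
      rfl
  have hφ : ∀ s (r : k[X]), (φ ^ s) (algebraMap k[X] _ r) =
      algebraMap k[X] _ (r.map (iterateFrobenius k p (e * s))) := by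
    intro s r
    induction s with
    | zero => simp
    | succ s ih =>
      rw [pow_succ', RingHom.mul_def, RingHom.comp_apply, ih, Nat.mul_succ, add_comm,
        iterateFrobenius_add, ← Polynomial.map_map]
      exact Subtype.ext (hΦ _)
  obtain ⟨D, ⟨b⟩⟩ : ∃ D, Nonempty (Basis (Fin D) k[X] (integralClosure k[X] M)) :=
    ⟨_, ⟨Module.finBasis k[X] (integralClosure k[X] M)⟩⟩
  obtain ⟨n0, C, s0, hs0⟩ := many b
    (integralClosure k[X] M ≃ₐ[k[X]] integralClosure k[X] M) p he (fun s => φ ^ s) hφ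
    (fun f => by
      obtain ⟨P, hP, hPf⟩ : IsIntegral k[X] f := Algebra.IsIntegral.isIntegral f
      refine finite_orbit φ (hP.map (algebraMap k[X] _)).ne_zero (fun a ha => ?_)
        (by rw [eval_map]; exact hPf)
      obtain ⟨n, -, rfl⟩ := mem_coeffs_iff.1 ha
      obtain ⟨N, hN, hN'⟩ := common_period (iterateFrobenius k p e) (P.coeff n).coeffs
        fun c _ => by
          obtain ⟨N, hN, hc⟩ := hk c
          refine ⟨N, hN, ?_⟩
          have h1 : (iterateFrobenius k p 1 ^ N) c = c := by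
            rw [iter_pow, one_mul, iterateFrobenius_def, hc]
          have h2 := pow_mul_fix _ h1 e
          rw [iter_pow, one_mul, mul_comm] at h2
          rw [iter_pow, h2]
      refine ⟨N, hN, ?_⟩
      rw [coeff_map, hφ, ← iter_pow, map_fix _ _ hN'])
  obtain ⟨c1, hc1⟩ := (Set.finite_range fun i => dg b (x i)).bddAbove
  obtain ⟨c, hc⟩ : ∃ c, c = c1 + dg b h + c0 b := ⟨_, rfl⟩
  have hx : ∀ i, dg b (x i) ≤ c := fun i => (hc1 ⟨i, rfl⟩).trans (by omega)
  refine ⟨n0 * (D * (8 * c)) + C + 1 + p ^ (e * s0), fun s σ i j m n hne hle => ?_⟩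
  have hs : s0 ≤ s := by
    have h1 : p ^ (e * s0) ≤ p ^ (e * s) := le_trans
      (le_trans (Nat.le_add_left _ _) (Nat.le_mul_of_pos_right _ (by omega))) hle
    exact Nat.le_of_mul_le_mul_left ((Nat.pow_le_pow_iff_right hp).1 h1) (Nat.pos_of_ne_zero he)
  obtain ⟨T, hT, hT'⟩ := hs0 s hs
    (galRestrict k[X] (FractionRing k[X]) M (integralClosure k[X] M) σ)
  have hz : h * x i0 * (x i ^ m * x j ^ n - h ^ (m + n)) ≠ 0 :=
    mul_ne_zero (mul_ne_zero hh h0) (sub_ne_zero.2 hne)
  have hex : ∃ π ∈ T, π (h * x i0 * (x i ^ m * x j ^ n - h ^ (m + n))) ≠ 0 := by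
    by_contra hcon
    push Not at hcon
    have h1 := card_zeros_le b hz T hcon
    have h2 := dg_test b (x i0) (x i) (x j) h (hx _) (hx _) (hx _) (by omega) (by omega) m n
    have h3 : T.card ≤ D * (8 * c) * (m + n + 1) := by
      refine h1.trans ?_
      rw [mul_assoc D]
      refine Nat.mul_le_mul_left _ ?_
      have : c0 b ≤ c * (m + n + 1) := le_trans (by omega) (Nat.le_mul_of_pos_right c (by omega))
      nlinarith
    have h4 : n0 * T.card ≤ n0 * (D * (8 * c)) * (m + n + 1) := by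
      rw [mul_assoc n0]; exact Nat.mul_le_mul_left _ h3
    nlinarith [Nat.zero_le (C * (m + n)), Nat.zero_le (p ^ (e * s0) * (m + n + 1))]
  obtain ⟨π, hπ, hπ0⟩ := hex
  rw [map_mul, map_mul, map_sub, map_mul, map_pow, map_pow, map_pow] at hπ0
  refine ⟨π, left_ne_zero_of_mul (left_ne_zero_of_mul hπ0),
    right_ne_zero_of_mul (left_ne_zero_of_mul hπ0), sub_ne_zero.1 (right_ne_zero_of_mul hπ0),
    fun f g hfg => ?_⟩
  rw [← hT' π hπ f]
  refine congrArg π (Subtype.ext ?_)
  rw [← hfg]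
  refine Eq.trans ?_ (hφΦ s _).symm
  exact congrArg (Φ ^ s) (algebraMap_galRestrict_apply k[X] σ f).symm

end Pool.Agent.Lib.MP_661727_gt.FF
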